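import Pool.Agent.W890.SF.Stm

set_option autoImplicit false

namespace Pool.Agent.W54.SAM

open Finset Pool.Agent.W890.SF

theorem cnt {V : Type} [Fintype V] [DecidableEq V] (r : ℕ) (H : Finset (Finset V))
    (hH : Unif (r + 1) H) (A : Finset V) (v : V) (hv : v ∉ A) :
    (((univ.erase v).powersetCard r).filter (fun S => ¬ Disjoint S A ∧ insert v S ∉ H)).card
      + dg H v + (Fintype.card V - 1 - A.card).choose r
      ≤ (Fintype.card V - 1).choose r +
        ((H.filter (fun e => Disjoint e A)).filter (fun e => v ∈ e)).card := by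
  obtain ⟨P, hPdef⟩ : ∃ P, P = (univ.erase v).powersetCard r := ⟨_, rfl⟩
  rw [← hPdef]
  have hP : P.card = (Fintype.card V - 1).choose r := by
    rw [hPdef, card_powersetCard, card_erase_of_mem (mem_univ v), card_univ]
  have h1 : (P.filter (fun S => ¬ Disjoint S A ∧ insert v S ∉ H)).card +
      (P.filter (fun S => ¬ Disjoint S A ∧ insert v S ∈ H)).card +
      (P.filter (fun S => Disjoint S A)).card = P.card := by
    have e1 := card_filter_add_card_filter_not (s := P) (fun S => Disjoint S A)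
    have e2 := card_filter_add_card_filter_not
      (s := P.filter (fun S => ¬ Disjoint S A)) (fun S => insert v S ∈ H)
    rw [filter_filter, filter_filter] at e2
    omega
  have h2 : (Fintype.card V - 1 - A.card).choose r ≤ (P.filter (fun S => Disjoint S A)).card := by
    have hsub : A ⊆ univ.erase v := fun x hx => mem_erase.2 ⟨fun h => hv (h ▸ hx), mem_univ _⟩
    have e1 : ((univ.erase v) \ A).card = Fintype.card V - 1 - A.card := by
      rw [card_sdiff_of_subset hsub, card_erase_of_mem (mem_univ v), card_univ]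
    rw [← e1, ← card_powersetCard]
    apply card_le_card
    intro S hS
    rw [mem_powersetCard] at hS
    rw [mem_filter, hPdef, mem_powersetCard]
    refine ⟨⟨hS.1.trans sdiff_subset, hS.2⟩, ?_⟩
    rw [Finset.disjoint_left]
    intro x hx hxA
    exact (mem_sdiff.1 (hS.1 hx)).2 hxA
  have h3 : dg H v ≤ (P.filter (fun S => ¬ Disjoint S A ∧ insert v S ∈ H)).card +
      ((H.filter (fun e => Disjoint e A)).filter (fun e => v ∈ e)).card := by
    unfold dg
    have e1 := card_filter_add_card_filter_not (s := H.filter (fun e => v ∈ e))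
      (fun e => Disjoint e A)
    have e2 : ((H.filter (fun e => v ∈ e)).filter (fun e => Disjoint e A)).card =
        ((H.filter (fun e => Disjoint e A)).filter (fun e => v ∈ e)).card := by
      rw [filter_comm]
    have e3 : ((H.filter (fun e => v ∈ e)).filter (fun e => ¬ Disjoint e A)).card ≤
        (P.filter (fun S => ¬ Disjoint S A ∧ insert v S ∈ H)).card := by
      apply card_le_card_of_injOn (fun e => e.erase v)
      · intro e he
        have he' := mem_filter.1 (mem_coe.1 he)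
        have he'' := mem_filter.1 he'.1
        refine mem_coe.2 (mem_filter.2 ⟨?_, ?_, ?_⟩)
        · rw [hPdef, mem_powersetCard]
          refine ⟨erase_subset_erase v (subset_univ e), ?_⟩
          show (e.erase v).card = r
          rw [card_erase_of_mem he''.2, hH e he''.1, Nat.add_sub_cancel]
        · intro hd
          apply he'.2
          rw [Finset.disjoint_left] at hd ⊢
          intro x hx hxA
          by_cases hxv : x = v
          · exact hv (hxv ▸ hxA)
          · exact hd (mem_erase.2 ⟨hxv, hx⟩) hxA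
        · show insert v (e.erase v) ∈ H
          rw [insert_erase he''.2]; exact he''.1
      · intro e he f hf hef
        have he' := (mem_filter.1 (mem_filter.1 (mem_coe.1 he)).1).2
        have hf' := (mem_filter.1 (mem_filter.1 (mem_coe.1 hf)).1).2
        have hef' : e.erase v = f.erase v := hef
        rw [← insert_erase he', ← insert_erase hf', hef']
    omega
  omega

theorem dbl {V : Type} [Fintype V] [DecidableEq V] (k : ℕ) (D : Finset (Finset V))
    (hD : Unif k D) : ∑ v : V, (D.filter (fun e => v ∈ e)).card = k * D.card := by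
  have h1 : ∀ v : V, (D.filter (fun e => v ∈ e)).card = ∑ e ∈ D, if v ∈ e then 1 else 0 :=
    fun v => card_filter _ _
  rw [sum_congr rfl (fun v _ => h1 v), sum_comm]
  have h2 : ∀ e ∈ D, (∑ v : V, if v ∈ e then 1 else 0) = k := by
    intro e he
    rw [← card_filter, filter_mem_eq_inter, univ_inter]
    exact hD e he
  rw [sum_congr rfl h2, sum_const, smul_eq_mul, mul_comm]

theorem pow_diff (r : ℕ) (a b : ℝ) (hb : 0 ≤ b) (hab : b ≤ a) (ha : a ≤ 1) :
    a ^ r - b ^ r ≤ r * (a - b) := by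
  induction r with
  | zero => simp
  | succ r ih =>
    have h1 : 0 ≤ a ^ r - b ^ r := sub_nonneg.2 (pow_le_pow_left₀ hb hab r)
    have h2 : b ^ r ≤ 1 := pow_le_one₀ hb (hab.trans ha)
    have h3 : 0 ≤ b ^ r := pow_nonneg hb r
    push_cast
    have e : a ^ (r + 1) - b ^ (r + 1) = a * (a ^ r - b ^ r) + b ^ r * (a - b) := by ring
    rw [e]
    nlinarith [mul_le_mul_of_nonneg_right ha h1, mul_le_mul_of_nonneg_right h2 (sub_nonneg.2 hab)]

theorem pow_sup (r : ℕ) (hr : 1 ≤ r) (x y : ℝ) (hx : 0 ≤ x) (hy : 0 ≤ y) :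
    x ^ r + y ^ r ≤ (x + y) ^ r := by
  induction r, hr using Nat.le_induction with
  | base => simp
  | succ r hr ih =>
    have h1 : (x ^ r + y ^ r) * (x + y) ≤ (x + y) ^ r * (x + y) :=
      mul_le_mul_of_nonneg_right ih (by positivity)
    have h2 : 0 ≤ x ^ r * y := by positivity
    have h3 : 0 ≤ y ^ r * x := by positivity
    have e1 : (x + y) ^ (r + 1) = (x + y) ^ r * (x + y) := pow_succ _ _
    have e2 : x ^ (r + 1) + y ^ (r + 1) = (x ^ r + y ^ r) * (x + y) - x ^ r * y - y ^ r * x := by ring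
    rw [e1, e2]; linarith

theorem low (N a r : ℕ) (hr : 1 ≤ r) (h : a + r ≤ N) :
    ((N : ℝ) - a - r) ^ r ≤ (r.factorial : ℝ) * (((N - 1 - a).choose r : ℕ) : ℝ) := by
  have h1 : (N - 1 - a + 1 - r) ^ r ≤ (N - 1 - a).descFactorial r := Nat.pow_sub_le_descFactorial _ _
  rw [Nat.descFactorial_eq_factorial_mul_choose] at h1
  have e : N - 1 - a + 1 - r = N - a - r := by omega
  rw [e] at h1
  have h2 : (((N - a - r : ℕ)) : ℝ) = (N : ℝ) - a - r := by
    rw [Nat.cast_sub (by omega), Nat.cast_sub (by omega)]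
  rw [← h2]
  exact_mod_cast h1

theorem upp (N r : ℕ) : (r.factorial : ℝ) * (((N - 1).choose r : ℕ) : ℝ) ≤ (N : ℝ) ^ r := by
  have h1 : (N - 1).descFactorial r ≤ (N - 1) ^ r := Nat.descFactorial_le_pow _ _
  rw [Nat.descFactorial_eq_factorial_mul_choose] at h1
  have h2 : (N - 1) ^ r ≤ N ^ r := Nat.pow_le_pow_left (by omega) r
  exact_mod_cast h1.trans h2

/-- the numerical part -/
theorem num (r : ℕ) (n A a s γ F C0 C1 miss dv d0 : ℝ)
    (ha0 : 2 / 3 ≤ a) (hγ : γ = s ^ 2) (hF : 1 ≤ F)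
    (hmiss : miss + dv + C1 ≤ C0 + d0) (hdv : (1 - a ^ r - γ) * C0 ≤ dv) (hd0 : d0 ≤ s * n ^ r)
    (hC0 : F * C0 ≤ n ^ r) (hC1 : (n - A - r) ^ r ≤ F * C1) :
    F * miss ≤ (a ^ r + γ + F * s) * n ^ r - (n - A - r) ^ r := by
  have h1 : 0 ≤ a ^ r + γ := by rw [hγ]; positivity
  have h2 : (a ^ r + γ) * (F * C0) ≤ (a ^ r + γ) * n ^ r := mul_le_mul_of_nonneg_left hC0 h1
  have h3 : miss ≤ (a ^ r + γ) * C0 - C1 + s * n ^ r := by nlinarith
  have h4 : F * miss ≤ F * ((a ^ r + γ) * C0 - C1 + s * n ^ r) :=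
    mul_le_mul_of_nonneg_left h3 (by linarith)
  nlinarith

theorem fin1 (r : ℕ) (hr : 1 ≤ r) (n Ac a s δ F X Kinv : ℝ) (hn : 0 < n) (ha0 : 2 / 3 ≤ a)
    (hadef : a = 1 - Kinv) (hδ : 0 < δ) (hs0 : 0 < s) (hss : s ^ 2 ≤ s)
    (hs5 : s * (1 + F) < (δ / 2) ^ r) (hnr1 : (r : ℝ) ≤ δ / 2 * n)
    (hcon : Ac < (Kinv - δ) * n) (hX : 0 ≤ X)
    (h1 : X ≤ (a ^ r + s ^ 2 + F * s) * n ^ r - (n - Ac - r) ^ r) : False := by
  have hnr0 : (0 : ℝ) < n ^ r := by positivity
  have h3 : (a + δ / 2) * n ≤ n - Ac - r := by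
    have e : (a + δ / 2) * n = n - (Kinv - δ) * n - δ / 2 * n := by rw [hadef]; ring
    rw [e]; linarith
  have h4 : ((a + δ / 2) * n) ^ r ≤ (n - Ac - r) ^ r :=
    pow_le_pow_left₀ (by positivity) h3 r
  rw [mul_pow] at h4
  have h5 := pow_sup r hr a (δ / 2) (by linarith) (by positivity)
  have h6 : (a ^ r + (δ / 2) ^ r) * n ^ r ≤ (a + δ / 2) ^ r * n ^ r :=
    mul_le_mul_of_nonneg_right h5 hnr0.le
  have h7 : (a ^ r + (δ / 2) ^ r) * n ^ r ≤ (a ^ r + s ^ 2 + F * s) * n ^ r := by linarith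
  have h8 := le_of_mul_le_mul_right h7 hnr0
  have h9 : s * (1 + F) = s + F * s := by ring
  linarith

theorem fin2 (r : ℕ) (n Ac a s δ F M Kinv : ℝ) (hn : 0 < n) (ha0 : 2 / 3 ≤ a) (ha1 : a ≤ 1)
    (hadef : a = 1 - Kinv) (hs0 : 0 < s) (hs8 : s ≤ 1 / 8) (hss : s ^ 2 ≤ s)
    (hs2 : (r + 2) * s ≤ δ / 2) (hF : 1 ≤ F) (hnr : 6 * (r : ℝ) ≤ n)
    (hnr2 : (r : ℝ) ^ 2 ≤ δ / 2 * n) (hAc : Ac ≤ (Kinv + s ^ 2) * n)
    (h1 : F * M ≤ (a ^ r + s ^ 2 + F * s) * n ^ r - (n - Ac - r) ^ r) : M ≤ δ * n ^ r := by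
  have hnr0 : (0 : ℝ) < n ^ r := by positivity
  obtain ⟨t, ht⟩ : ∃ t : ℝ, t = s ^ 2 + r / n := ⟨_, rfl⟩
  have hrn : (r : ℝ) / n * n = r := div_mul_cancel₀ _ hn.ne'
  have hrn6 : (r : ℝ) / n ≤ 1 / 6 := by
    rw [div_le_iff₀ hn]; linarith
  have hrn0 : 0 ≤ (r : ℝ) / n := by positivity
  have ht0 : 0 ≤ t := by rw [ht]; positivity
  have hta : t ≤ a := by rw [ht]; linarith
  have h3 : (a - t) * n ≤ n - Ac - r := by
    have e : (a - t) * n = n - (Kinv + s ^ 2) * n - r / n * n := by rw [hadef, ht]; ring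
    rw [e, hrn]
    linarith
  have h4 : ((a - t) * n) ^ r ≤ (n - Ac - r) ^ r :=
    pow_le_pow_left₀ (mul_nonneg (by linarith) hn.le) h3 r
  rw [mul_pow] at h4
  have h5 := pow_diff r a (a - t) (by linarith) (by linarith) ha1
  have h6 : (a ^ r - (a - t) ^ r) * n ^ r ≤ (r * t) * n ^ r := by
    refine mul_le_mul_of_nonneg_right (h5.trans (le_of_eq (by ring))) hnr0.le
  have h7 : F * M ≤ (r * t + s ^ 2 + F * s) * n ^ r := by
    have e1 : (a ^ r - (a - t) ^ r) * n ^ r = a ^ r * n ^ r - (a - t) ^ r * n ^ r := by ring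
    have e2 : (a ^ r + s ^ 2 + F * s) * n ^ r = a ^ r * n ^ r + (s ^ 2 + F * s) * n ^ r := by ring
    have e3 : (r * t + s ^ 2 + F * s) * n ^ r = (r * t) * n ^ r + (s ^ 2 + F * s) * n ^ r := by ring
    rw [e1] at h6
    rw [e2] at h1
    rw [e3]
    linarith
  have h8 : r * t + s ^ 2 + F * s ≤ F * (r * t + s ^ 2 + s) := by
    have h : 0 ≤ r * t + s ^ 2 := by positivity
    have h' : 1 * (r * t + s ^ 2) ≤ F * (r * t + s ^ 2) := mul_le_mul_of_nonneg_right hF h
    have e : F * (r * t + s ^ 2 + s) = F * (r * t + s ^ 2) + F * s := by ring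
    rw [e]; linarith
  have h9 : F * M ≤ F * ((r * t + s ^ 2 + s) * n ^ r) := by
    refine h7.trans ?_
    rw [← mul_assoc]
    exact mul_le_mul_of_nonneg_right h8 hnr0.le
  have h10 : M ≤ (r * t + s ^ 2 + s) * n ^ r := le_of_mul_le_mul_left h9 (by linarith)
  refine h10.trans (mul_le_mul_of_nonneg_right ?_ hnr0.le)
  have h11 : (r : ℝ) * (r / n) ≤ δ / 2 := by
    rw [← mul_div_assoc, div_le_iff₀ hn]
    calc (r : ℝ) * r = r ^ 2 := by ring
      _ ≤ δ / 2 * n := hnr2
  have h12 : (r : ℝ) * s ^ 2 ≤ r * s := mul_le_mul_of_nonneg_left hss (Nat.cast_nonneg r)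
  rw [ht]
  have e1 : (r : ℝ) * (s ^ 2 + r / n) + s ^ 2 + s = r * s ^ 2 + r * (r / n) + s ^ 2 + s := by ring
  have e2 : (r + 2) * s = r * s + 2 * s := by ring
  rw [e1]; rw [e2] at hs2
  linarith

theorem tyb : S_TYB := by
  intro k hk δ hδ
  obtain ⟨r, rfl⟩ : ∃ r, k = r + 1 := ⟨k - 1, by omega⟩
  simp only [Nat.add_sub_cancel]
  have hr2 : 2 ≤ r := by omega
  -- parameters
  obtain ⟨F, hFdef⟩ : ∃ F : ℝ, F = (r.factorial : ℝ) := ⟨_, rfl⟩
  have hF : 1 ≤ F := by rw [hFdef]; exact_mod_cast Nat.one_le_iff_ne_zero.2 (Nat.factorial_ne_zero r)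
  obtain ⟨K, hKdef⟩ : ∃ K : ℝ, K = (r : ℝ) + 1 := ⟨_, rfl⟩
  have hr2' : (2 : ℝ) ≤ r := by exact_mod_cast hr2
  have hK3 : 3 ≤ K := by rw [hKdef]; linarith
  have hq : 0 < (δ / 2) ^ r := by positivity
  obtain ⟨s, hs0, hs1, hs2, hs3, hs4, hs5⟩ : ∃ s : ℝ, 0 < s ∧ s ≤ 1 ∧ (r + 2) * s ≤ δ / 2 ∧
      K * s ≤ δ ∧ (K + 1) * s ≤ 1 / 2 ∧ s * (1 + F) < (δ / 2) ^ r := by
    refine ⟨min 1 (min (δ / 2 / (r + 2)) (min (δ / K) (min (1 / 2 / (K + 1))
      ((δ / 2) ^ r / (2 * (1 + F)))))), ?_, min_le_left _ _, ?_, ?_, ?_, ?_⟩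
    · positivity
    · rw [mul_comm, ← le_div_iff₀ (by positivity)]
      exact (min_le_right _ _).trans (min_le_left _ _)
    · rw [mul_comm, ← le_div_iff₀ (by positivity)]
      exact (min_le_right _ _).trans ((min_le_right _ _).trans (min_le_left _ _))
    · rw [mul_comm, ← le_div_iff₀ (by positivity)]
      exact (min_le_right _ _).trans ((min_le_right _ _).trans ((min_le_right _ _).trans
        (min_le_left _ _)))
    · refine lt_of_le_of_lt (mul_le_mul_of_nonneg_right ((min_le_right _ _).trans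
        ((min_le_right _ _).trans ((min_le_right _ _).trans (min_le_right _ _)))) (by positivity)) ?_
      have e : (δ / 2) ^ r / (2 * (1 + F)) * (1 + F) = (δ / 2) ^ r / 2 := by field_simp
      rw [e]; linarith
  have hss : s ^ 2 ≤ s := by
    rw [sq]; exact mul_le_of_le_one_left hs0.le hs1
  have h4s : 4 * s ≤ (K + 1) * s := mul_le_mul_of_nonneg_right (by linarith) hs0.le
  have hs8 : s ≤ 1 / 8 := by linarith
  have h3s : 3 * s ≤ K * s := mul_le_mul_of_nonneg_right hK3 hs0.le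
  have hsδ : s ≤ δ := by linarith
  have hKs : K * s ≤ 1 / 2 - s := by
    have : (K + 1) * s = K * s + s := by ring
    linarith
  refine ⟨s ^ 2, by positivity, ⌈12 * (r : ℝ) + 2 * r ^ 2 / δ + 2 * r / δ⌉₊ + 1, ?_⟩
  intro V _ _ hN H hH hdeg hext
  obtain ⟨A, hA1, hA2⟩ := hext
  obtain ⟨n, hndef⟩ : ∃ n : ℝ, n = (Fintype.card V : ℝ) := ⟨_, rfl⟩
  have hn0 : 12 * (r : ℝ) + 2 * r ^ 2 / δ + 2 * r / δ + 1 ≤ n := by
    have h1 := Nat.le_ceil (12 * (r : ℝ) + 2 * r ^ 2 / δ + 2 * r / δ)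
    have h2 : ((⌈12 * (r : ℝ) + 2 * r ^ 2 / δ + 2 * r / δ⌉₊ + 1 : ℕ) : ℝ) ≤ (Fintype.card V : ℝ) := by
      exact_mod_cast hN
    push_cast at h2
    rw [hndef]; linarith
  have p1 : 0 < 2 * (r : ℝ) ^ 2 / δ := by positivity
  have p2 : 0 < 2 * (r : ℝ) / δ := by positivity
  have hn1 : 1 ≤ n := by linarith
  have hnr : 6 * (r : ℝ) ≤ n := by linarith
  have hnr1 : (r : ℝ) ≤ δ / 2 * n := by
    have : 2 * (r : ℝ) / δ ≤ n := by linarith
    rw [div_le_iff₀ hδ] at this
    linarith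
  have hnr2 : (r : ℝ) ^ 2 ≤ δ / 2 * n := by
    have : 2 * (r : ℝ) ^ 2 / δ ≤ n := by linarith
    rw [div_le_iff₀ hδ] at this
    linarith
  have hnpos : 0 < n := by linarith
  obtain ⟨a, hadef⟩ : ∃ a : ℝ, a = 1 - 1 / K := ⟨_, rfl⟩
  have hKinv : 1 / K ≤ 1 / 3 := one_div_le_one_div_of_le (by norm_num) hK3
  have hKinv0 : 0 < 1 / K := by positivity
  have ha0 : 2 / 3 ≤ a := by rw [hadef]; linarith
  have ha1 : a ≤ 1 := by rw [hadef]; linarith
  have hcast : (((r + 1 : ℕ)) : ℝ) = K := by rw [hKdef]; push_cast; ring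
  rw [hcast, ← hndef] at hA1
  rw [← hndef] at hA2
  rw [hcast, ← hndef]
  -- the size of A
  have hA3 : (A.card : ℝ) ≤ 5 / 6 * n := by
    refine hA1.trans (mul_le_mul_of_nonneg_right ?_ hnpos.le)
    linarith
  have hArN : A.card + r ≤ Fintype.card V := by
    have : (A.card : ℝ) + r ≤ n := by linarith
    rw [hndef] at this
    exact_mod_cast this
  -- the set B
  let d0 : V → ℕ := fun v => ((H.filter (fun e => Disjoint e A)).filter (fun e => v ∈ e)).card
  let B : Finset V := (univ \ A).filter (fun v => (d0 v : ℝ) ≤ s * n ^ r)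
  let Bad : Finset V := (univ \ A).filter (fun v => ¬ ((d0 v : ℝ) ≤ s * n ^ r))
  have hpart : A.card + B.card + Bad.card = Fintype.card V := by
    have e1 : B.card + Bad.card = (univ \ A).card := card_filter_add_card_filter_not _
    have e2 : (univ \ A).card = Fintype.card V - A.card := by
      rw [card_sdiff_of_subset (subset_univ A), card_univ]
    have e3 : A.card ≤ Fintype.card V := card_le_univ A
    omega
  have hbad : (Bad.card : ℝ) ≤ K * s * n := by
    have h1 : (Bad.card : ℝ) * (s * n ^ r) ≤ K * (s ^ 2 * n ^ (r + 1)) := by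
      calc (Bad.card : ℝ) * (s * n ^ r) = ∑ _v ∈ Bad, s * n ^ r := by
            rw [sum_const, nsmul_eq_mul]
        _ ≤ ∑ v ∈ Bad, (d0 v : ℝ) := by
            apply sum_le_sum
            intro v hv
            exact (not_le.1 (mem_filter.1 hv).2).le
        _ ≤ ∑ v : V, (d0 v : ℝ) :=
            sum_le_sum_of_subset_of_nonneg (subset_univ _) (fun _ _ _ => Nat.cast_nonneg _)
        _ = ((∑ v : V, d0 v : ℕ) : ℝ) := by push_cast; rfl
        _ = (((r + 1) * (H.filter (fun e => Disjoint e A)).card : ℕ) : ℝ) := by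
            congr 1
            exact dbl (r + 1) _ (fun e he => hH e (mem_filter.1 he).1)
        _ = K * ((H.filter (fun e => Disjoint e A)).card : ℝ) := by rw [Nat.cast_mul, hcast]
        _ ≤ K * (s ^ 2 * n ^ (r + 1)) := mul_le_mul_of_nonneg_left hA2 (by linarith)
    have h2 : K * (s ^ 2 * n ^ (r + 1)) = K * s * n * (s * n ^ r) := by ring
    rw [h2] at h1
    exact le_of_mul_le_mul_right h1 (by positivity)
  have hAB : n - A.card - B.card ≤ K * s * n := by
    have : (A.card : ℝ) + B.card + Bad.card = n := by rw [hndef]; exact_mod_cast hpart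
    linarith
  -- the basic inequality
  have key : ∀ v ∈ B, F * (((((univ : Finset V).erase v).powersetCard r).filter
      (fun S => ¬ Disjoint S A ∧ insert v S ∉ H)).card : ℝ) ≤
      (a ^ r + s ^ 2 + F * s) * n ^ r - (n - A.card - r) ^ r := by
    intro v hv
    have hv' := mem_filter.1 hv
    have hvA : v ∉ A := (mem_sdiff.1 hv'.1).2
    have h1 := cnt r H hH A v hvA
    have h2 := hdeg v
    rw [hcast, Nat.add_sub_cancel, ← hadef] at h2
    refine num r n A.card a s (s ^ 2) F (((Fintype.card V - 1).choose r : ℕ) : ℝ)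
      (((Fintype.card V - 1 - A.card).choose r : ℕ) : ℝ) _ (dg H v : ℝ) (d0 v : ℝ) ha0 rfl hF
      (by exact_mod_cast h1) h2 hv'.2 ?_ ?_
    · rw [hFdef, hndef]; exact upp _ _
    · rw [hFdef, hndef]; exact low _ _ _ (by omega) hArN
  have hnr0 : (0 : ℝ) < n ^ r := by positivity
  have hAle : (A.card : ℝ) ≤ (1 / K + δ) * n := by
    refine hA1.trans (mul_le_mul_of_nonneg_right ?_ hnpos.le)
    linarith
  refine ⟨A, B, ?_, ?_, hAle, ?_, ?_⟩
  · rw [Finset.disjoint_left]
    intro x hx hxB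
    exact (mem_sdiff.1 (mem_filter.1 hxB).1).2 hx
  · exact hAB.trans (mul_le_mul_of_nonneg_right hs3 hnpos.le)
  · -- lower bound for A
    by_contra hcon
    push Not at hcon
    have hBne : B.Nonempty := by
      rw [← card_pos]
      have h1 : (A.card : ℝ) ≤ (1 / 3 + s ^ 2) * n :=
        hA1.trans (mul_le_mul_of_nonneg_right (by linarith) hnpos.le)
      have h2 : (s ^ 2 + K * s) * n ≤ 1 / 2 * n :=
        mul_le_mul_of_nonneg_right (by linarith) hnpos.le
      have e : (1 / 3 + s ^ 2) * n + K * s * n = (s ^ 2 + K * s) * n + 1 / 3 * n := by ring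
      have h3 : (0 : ℝ) < B.card := by linarith
      exact_mod_cast h3
    obtain ⟨v, hv⟩ := hBne
    exact fin1 r (by omega) n A.card a s δ F _ (1 / K) hnpos ha0 hadef hδ hs0 hss hs5 hnr1 hcon
      (mul_nonneg (by linarith) (Nat.cast_nonneg _)) (key v hv)
  · intro v hv
    exact fin2 r n A.card a s δ F _ (1 / K) hnpos ha0 ha1 hadef hs0 hs8 hss hs2 hF hnr hnr2 hA1
      (key v hv)

end Pool.Agent.W54.SAM
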